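import Pool.Agent.Y583.MG4
import Pool.Agent.Y583.MG5

set_option autoImplicit false

/-!
# Categoricity implies Galois-stability for abstract elementary classes of modules

`R` is a countable ring and `K` is an abstract elementary class with Löwenheim-Skolem number `ℵ₀`
whose members are `R`-modules (in the usual language `Lmod R` of `R`-modules). The strong
submodules are arbitrary.

`hanf ℵ₀ = ℶ_((2 ^ ℵ₀)⁺)`.
-/

namespace Pool.Agent.Results.MP_860a31_lc.ModulesGaloisStability

open Cardinal FirstOrder Pool.Agent.TH767.DS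
open Pool.Agent.H288R4.LS (hanf)
open Pool.Agent.Y583.MC (embLin KKof KKof_emb main_over_AEC same_of_code exists_code small_ext
  UniqK)

/-- The triples `(a, M, N)`: a strong embedding of `M` in a member `N` and an element `a` of `N`. -/
structure Triple {L : FirstOrder.Language.{0, 0}} (K : AEC L) (M : Type) [L.Structure M] where
  N : Type
  str : L.Structure N
  i : M ↪[L] N
  emb : K.emb i
  a : N

attribute [instance] Triple.str

/-- `(a, M, N)` and `(a', M, N')` have the same Galois type over `M`, in one step: there are strong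
embeddings of `N` and `N'` in some member that agree on `M` and map `a` and `a'` to the same
element. -/
def SameType {L : FirstOrder.Language.{0, 0}} {K : AEC L} {M : Type} [L.Structure M]
    (p q : Triple K M) : Prop :=
  ∃ (P : Type) (_ : L.Structure P) (f : p.N ↪[L] P) (g : q.N ↪[L] P), K.emb f ∧ K.emb g ∧
    (∀ x, f (p.i x) = g (q.i x)) ∧ f p.a = g q.a

/-- The Galois types over `M`: the classes of triples for the equivalence relation generated by
`SameType` (if `K` has the amalgamation property, then `SameType` is an equivalence relation). -/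
def GS {L : FirstOrder.Language.{0, 0}} (K : AEC L) (M : Type) [L.Structure M] : Type 1 :=
  Quot (SameType (K := K) (M := M))

/-- `K` is Galois-stable in `χ`: there are at most `χ` Galois types over each member of
cardinality `χ`. -/
def GaloisStable {L : FirstOrder.Language.{0, 0}} (K : AEC L) (χ : Cardinal.{0}) : Prop :=
  ∀ (M : Type) [L.Structure M], K.mem M → #M = χ → #(GS K M) ≤ Cardinal.lift.{1} χ

section
attribute [local instance] modStr

variable {R : Type} [Ring R] {K : AEC (Lmod R)} {M D : Type} [AddCommGroup M] [Module R M]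
  [AddCommGroup D] [Module R D]

/-- codes of triples -/
def Code (χ : Cardinal.{0}) (hLS : K.LSat ℵ₀) (D : Type) [AddCommGroup D] [Module R D]
    (p : Triple K M) (t : M × (Σ n : ℕ, (Fin n →₀ D))) : Prop :=
  ∃ (N : Type) (_ : AddCommGroup N) (_ : Module R N) (f : M →ₗ[R] N)
    (hf : (KKof K hLS).emb f) (a : N) (ι : Type) (k : N ≃ₗ[R] (M × (ι →₀ D)))
    (e : Fin t.2.1 ↪ ι), #N = χ ∧ (∀ x, k (f x) = (x, 0)) ∧
    k a = (t.1, Finsupp.mapDomain e t.2.2) ∧ SameType p ⟨N, modStr R N, linEmb f hf.1, hf.2, a⟩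

theorem code_unique {χ : Cardinal.{0}} {hLS : K.LSat ℵ₀} (huniq : UniqK (KKof K hLS) χ)
    (hM : #M = χ) {p q : Triple K M} {t : M × (Σ n : ℕ, (Fin n →₀ D))}
    (hp : Code χ hLS D p t) (hq : Code χ hLS D q t) :
    Quot.mk (SameType (K := K) (M := M)) p = Quot.mk _ q := by
  obtain ⟨N, i1, i2, f, hf, a, ι, k, e, h1, h2, h3, h4⟩ := hp
  obtain ⟨N', i1', i2', f', hf', a', ι', k', e', h1', h2', h3', h4'⟩ := hq
  obtain ⟨P, j1, j2, g, g', ⟨hg1, hg2⟩, ⟨hg1', hg2'⟩, hg3, hg4⟩ := same_of_code huniq hM h1 h1'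
    f f' hf hf' k k' h2 h2' t.1 t.2.2 e e' a a' h3 h3'
  refine (Quot.sound h4).trans (Eq.trans (Quot.sound ?_) (Quot.sound h4').symm)
  exact ⟨P, modStr R P, linEmb g hg1, linEmb g' hg1', hg2, hg2', hg3, hg4⟩

theorem code_exists [Countable R] {χ : Cardinal.{0}} {hLS : K.LSat ℵ₀}
    (hmod : ∀ (N : Type) (S : (Lmod R).Structure N), @AEC.mem _ K N S → IsMod R N S)
    (hχ : hanf ℵ₀ ≤ χ) (hχ' : ℵ₀ ≤ χ)
    (hover : ∀ (M N : Type) [AddCommGroup M] [Module R M] [AddCommGroup N] [Module R N]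
        (f : M →ₗ[R] N), (KKof K hLS).emb f → hanf ℵ₀ ≤ #M → #M = #N →
        ∃ (ι : Type) (k : N ≃ₗ[R] (M × (ι →₀ D))), ∀ x, k (f x) = (x, 0))
    (hM : #M = χ) (p : Triple K M) : ∃ t, Code χ hLS D p t := by
  obtain ⟨N, S, i, hi, a⟩ := p
  have hm := (K.emb_mem _ hi).2
  obtain ⟨i1, i2, rfl⟩ := hmod N S hm
  obtain ⟨S, f, h1, h2, h3, h4, h5⟩ := small_ext (embLin i) (KKof_emb K hLS i hi) a (hM ▸ hχ')
  obtain ⟨ι, k, hk⟩ := hover M S f h4 (hM ▸ hχ) h1.symm
  obtain ⟨n, v, e, hv⟩ := exists_code (k ⟨a, h2⟩).2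
  refine ⟨((k ⟨a, h2⟩).1, ⟨n, v⟩), S, inferInstance, inferInstance, f, h4, ⟨a, h2⟩, ι, k, e,
    h1.trans hM, hk, Prod.ext rfl hv, ?_⟩
  exact ⟨N, modStr R N, FirstOrder.Language.Embedding.refl _ N, linEmb S.subtype h5.1,
    K.emb_equiv (FirstOrder.Language.Equiv.refl (Lmod R) N) hm, h5.2, fun x => (h3 x).symm, rfl⟩

end

/-- Let `R` be a countable ring and `K` an abstract elementary class of `R`-modules with
`LS(K) = ℵ₀`. If `K` is categorical in one cardinal `μ ≥ H₁`, then `K` is Galois-stable in every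
`χ ≥ H₁`. -/
theorem result (R : Type) [Ring R] [Countable R] (K : AEC (Lmod R)) (hLS : K.LSat ℵ₀)
    (hmod : ∀ (N : Type) (S : (Lmod R).Structure N), @AEC.mem _ K N S → IsMod R N S)
    (μ : Cardinal.{0}) (hμ : hanf ℵ₀ ≤ μ) (hcat : K.Categorical μ)
    (χ : Cardinal.{0}) (hχ : hanf ℵ₀ ≤ χ) : GaloisStable K χ := by
  classical
  obtain ⟨huniq, D, i1, i2, hD, hover⟩ := main_over_AEC K hLS hmod μ hμ hcat
  have hχ' : ℵ₀ ≤ χ := (Pool.Agent.H288R4.LS.self_lt_hanf le_rfl).le.trans hχ
  intro M S hm hM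
  obtain ⟨j1, j2, rfl⟩ := hmod M S hm
  letI := modStr R M
  have hex : ∀ x : GS K M, ∃ t, Code χ hLS D (Quot.out x) t := fun x =>
    code_exists hmod hχ hχ' hover hM (Quot.out x)
  choose F hF using hex
  have hinj : Function.Injective F := by
    intro x y hxy
    have h1 := hF x
    rw [hxy] at h1
    have h2 := code_unique (huniq χ hχ) hM h1 (hF y)
    exact ((Quot.out_eq x).symm.trans h2).trans (Quot.out_eq y)
  have h3 : #(GS K M) ≤ Cardinal.lift.{1} #(M × (Σ n : ℕ, (Fin n →₀ D))) := by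
    have h4 := Cardinal.lift_mk_le'.2 ⟨⟨F, hinj⟩⟩
    rwa [Cardinal.lift_id'.{0, 1}] at h4
  refine h3.trans (Cardinal.lift_le.2 ?_)
  haveI : ∀ n : ℕ, Countable (Fin n →₀ D) := fun n => inferInstance
  rw [mk_prod, Cardinal.lift_id, Cardinal.lift_id, hM]
  exact (mul_le_mul' le_rfl ((mk_le_aleph0 (α := Σ n : ℕ, (Fin n →₀ D))).trans hχ')).trans
    (mul_eq_self hχ').le

end Pool.Agent.Results.MP_860a31_lc.ModulesGaloisStability
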